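import Mathlib

namespace Pool.Agent.Results.MP_5c2e51_co.LRTDisplayed

open Finset

variable {α S : Type*} [DecidableEq α]

/-- A finite rooted phylogenetic tree with leaf set `L`, given by its hierarchy of clusters.
The vertices of the tree are the clusters; the cluster of a vertex `v` is the set of leaves `x`
with `x ⪯ v`; the root is `L`, the leaf `x` is `{x}`, and `v ⪯ w` means `v ⊆ w`.
(Rooted phylogenetic trees on `L` and hierarchies on `L` are the same thing.) -/
@[ext]
structure PhyloTree (L : Finset α) where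
  /-- the vertices of the tree, as sets of leaves -/
  clusters : Finset (Finset α)
  root_mem : L ∈ clusters
  leaf_mem : ∀ x ∈ L, {x} ∈ clusters
  nonempty_of_mem : ∀ C ∈ clusters, C.Nonempty
  subset_of_mem : ∀ C ∈ clusters, C ⊆ L
  laminar : ∀ C ∈ clusters, ∀ D ∈ clusters, C ⊆ D ∨ D ⊆ C ∨ Disjoint C D

namespace PhyloTree

variable {L : Finset α}

/-- The least common ancestor of the leaves `x` and `y`: the intersection of all clusters
containing both (it is itself a cluster, see `lca_mem`). -/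
def lca (T : PhyloTree L) (x y : α) : Finset α :=
  L.filter (fun z => ∀ C ∈ T.clusters, x ∈ C → y ∈ C → z ∈ C)

/-- `u` is a truncation map for `(T, σ)`: for each leaf `x` and each colour `s ≠ σ x`,
`u x s` is a vertex of the tree with `x ⪯ u x s`. -/
def IsTruncation (T : PhyloTree L) (σ : α → S) (u : α → S → Finset α) : Prop :=
  ∀ x ∈ L, ∀ s, s ≠ σ x → u x s ∈ T.clusters ∧ x ∈ u x s

/-- the arcs of the digraph `qBMG(T, σ, u)`. -/
def qArc (T : PhyloTree L) (σ : α → S) (u : α → S → Finset α) (x y : α) : Prop :=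
  σ x ≠ σ y ∧ (¬ ∃ y' ∈ L, σ y' = σ y ∧ T.lca x y' ⊂ T.lca x y) ∧ T.lca x y ⊆ u x (σ y)

/-- `(T, σ, u)` explains the vertex-coloured digraph with vertex set `L`, arcs `G`,
colouring `σ`. Only the restriction of `G` to `L` matters. -/
def Explains (T : PhyloTree L) (σ : α → S) (u : α → S → Finset α) (G : α → α → Prop) : Prop :=
  ∀ x ∈ L, ∀ y ∈ L, (G x y ↔ T.qArc σ u x y)

/-- some truncation map `u` makes `(T, σ, u)` explain `(G, σ)`. -/
def QExplains (T : PhyloTree L) (σ : α → S) (G : α → α → Prop) : Prop :=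
  ∃ u : α → S → Finset α, T.IsTruncation σ u ∧ T.Explains σ u G

/-- `(T, σ, u)` with `u` constantly the root explains `(G, σ)`. -/
def BExplains (T : PhyloTree L) (σ : α → S) (G : α → α → Prop) : Prop :=
  T.Explains σ (fun _ _ => L) G

/-- The restriction `T_{L'}` of the tree to a nonempty set `L'` of leaves: its clusters are the
nonempty traces on `L'` of the clusters of `T`. -/
def restrict (T : PhyloTree L) (L' : Finset α) (hsub : L' ⊆ L) (hne : L'.Nonempty) :
    PhyloTree L' where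
  clusters := (T.clusters.image (fun C => C ∩ L')).filter (fun C => C.Nonempty)
  root_mem := by
    rw [mem_filter, mem_image]
    exact ⟨⟨L, T.root_mem, inter_eq_right.mpr hsub⟩, hne⟩
  leaf_mem := by
    intro x hx
    rw [mem_filter, mem_image]
    refine ⟨⟨{x}, T.leaf_mem x (hsub hx), ?_⟩, singleton_nonempty x⟩
    exact inter_eq_left.mpr (singleton_subset_iff.mpr hx)
  nonempty_of_mem := by
    intro C hC
    exact (mem_filter.mp hC).2
  subset_of_mem := by
    intro C hC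
    obtain ⟨D, _, rfl⟩ := mem_image.mp (mem_filter.mp hC).1
    exact inter_subset_right
  laminar := by
    intro C hC D hD
    obtain ⟨C', hC', rfl⟩ := mem_image.mp (mem_filter.mp hC).1
    obtain ⟨D', hD', rfl⟩ := mem_image.mp (mem_filter.mp hD).1
    rcases T.laminar C' hC' D' hD' with h | h | h
    · exact Or.inl (inter_subset_inter_right h)
    · exact Or.inr (Or.inl (inter_subset_inter_right h))
    · exact Or.inr (Or.inr (h.mono inter_subset_left inter_subset_left))

/-- `T` displays `T'` (written `T' ≤ T`): `T'` arises from the restriction of `T` to the leaf set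
`L' ⊆ L` of `T'` by contracting inner edges, that is, by deleting inner clusters. -/
def Displays {L L' : Finset α} (T : PhyloTree L) (T' : PhyloTree L') : Prop :=
  ∃ (hsub : L' ⊆ L) (hne : L'.Nonempty), T'.clusters ⊆ (T.restrict L' hsub hne).clusters

/-- `(T, σ)` is a least resolved tree of the qBMG `(G, σ)`: some truncation map makes it explain
`(G, σ)` and no tree `T' ≠ T` displayed by `T` explains `(G, σ)` with any truncation map. -/
def IsQLRT (T : PhyloTree L) (σ : α → S) (G : α → α → Prop) : Prop :=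
  T.QExplains σ G ∧ ∀ T' : PhyloTree L, T.Displays T' → T' ≠ T → ¬ T'.QExplains σ G

/-- `(T, σ)` is a least resolved tree of the BMG `(G, σ)`: the same with `u` constantly the
root. -/
def IsBLRT (T : PhyloTree L) (σ : α → S) (G : α → α → Prop) : Prop :=
  T.BExplains σ G ∧ ∀ T' : PhyloTree L, T.Displays T' → T' ≠ T → ¬ T'.BExplains σ G

end PhyloTree

/-- the vertex-coloured digraph `(G, σ)` with vertex set `V` is a qBMG. -/
def IsQBMG (V : Finset α) (σ : α → S) (G : α → α → Prop) : Prop :=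
  ∃ T : PhyloTree V, T.QExplains σ G

/-- the vertex-coloured digraph `(G, σ)` with vertex set `V` is a BMG. For `W ⊆ V`,
`IsBMG W σ G` says that the induced subgraph `(G, σ)[W]` is a BMG. -/
def IsBMG (V : Finset α) (σ : α → S) (G : α → α → Prop) : Prop :=
  ∃ T : PhyloTree V, T.BExplains σ G

namespace PhyloTree

variable {L : Finset α}

theorem mem_lca (T : PhyloTree L) {x y z : α} (hz : z ∈ L) :
    z ∈ T.lca x y ↔ ∀ C ∈ T.clusters, x ∈ C → y ∈ C → z ∈ C := by
  simp [lca, hz]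

theorem left_mem_lca (T : PhyloTree L) {x y : α} (hx : x ∈ L) : x ∈ T.lca x y :=
  (T.mem_lca hx).mpr (fun _ _ h _ => h)

theorem right_mem_lca (T : PhyloTree L) {x y : α} (hy : y ∈ L) : y ∈ T.lca x y :=
  (T.mem_lca hy).mpr (fun _ _ _ h => h)

theorem lca_subset (T : PhyloTree L) {x y : α} {C : Finset α} (hC : C ∈ T.clusters)
    (hx : x ∈ C) (hy : y ∈ C) : T.lca x y ⊆ C := by
  intro z hz
  exact (mem_filter.mp hz).2 C hC hx hy

omit [DecidableEq α] in
/-- two clusters containing a common leaf are comparable -/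
theorem chain (T : PhyloTree L) {x : α} {C D : Finset α} (hC : C ∈ T.clusters)
    (hD : D ∈ T.clusters) (hxC : x ∈ C) (hxD : x ∈ D) : C ⊆ D ∨ D ⊆ C := by
  rcases T.laminar C hC D hD with h | h | h
  · exact Or.inl h
  · exact Or.inr h
  · exact absurd hxD (disjoint_left.mp h hxC)

/-- the least common ancestor is a vertex of the tree -/
theorem lca_mem (T : PhyloTree L) {x y : α} (hx : x ∈ L) (hy : y ∈ L) :
    T.lca x y ∈ T.clusters := by
  obtain ⟨C, hC, hmin⟩ := Finset.exists_min_image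
    (T.clusters.filter (fun C => x ∈ C ∧ y ∈ C)) Finset.card
    ⟨L, mem_filter.mpr ⟨T.root_mem, hx, hy⟩⟩
  obtain ⟨hC1, hC2, hC3⟩ := mem_filter.mp hC
  have : T.lca x y = C := by
    apply Subset.antisymm (T.lca_subset hC1 hC2 hC3)
    intro z hz
    rw [T.mem_lca (T.subset_of_mem C hC1 hz)]
    intro D hD hxD hyD
    have hcard := hmin D (mem_filter.mpr ⟨hD, hxD, hyD⟩)
    rcases T.chain hC1 hD hC2 hxD with h | h
    · exact h hz
    · rw [Finset.eq_of_subset_of_card_le h hcard]; exact hz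
  rw [this]; exact hC1

/-- `y` is a best match of `x` in the tree, in terms of clusters -/
def Best (T : PhyloTree L) (σ : α → S) (x y : α) : Prop :=
  ∀ D ∈ T.clusters, x ∈ D → (∃ y' ∈ D, σ y' = σ y) → y ∈ D

theorem best_iff (T : PhyloTree L) (σ : α → S) {x y : α} (hx : x ∈ L) (hy : y ∈ L) :
    (¬ ∃ y' ∈ L, σ y' = σ y ∧ T.lca x y' ⊂ T.lca x y) ↔ T.Best σ x y := by
  constructor
  · rintro h D hD hxD ⟨y', hy'D, hσ⟩
    have hy' : y' ∈ L := T.subset_of_mem D hD hy'D
    have h1 : ¬ T.lca x y' ⊂ T.lca x y := fun hlt => h ⟨y', hy', hσ, hlt⟩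
    have h2 : T.lca x y ⊆ T.lca x y' := by
      rcases T.chain (T.lca_mem hx hy) (T.lca_mem hx hy') (T.left_mem_lca hx)
        (T.left_mem_lca hx) with h3 | h3
      · exact h3
      · by_contra h4
        exact h1 ⟨h3, h4⟩
    exact T.lca_subset hD hxD hy'D (h2 (T.right_mem_lca hy))
  · rintro h ⟨y', hy', hσ, hlt⟩
    have h1 := h (T.lca x y') (T.lca_mem hx hy') (T.left_mem_lca hx)
      ⟨y', T.right_mem_lca hy', hσ⟩
    exact hlt.2 (T.lca_subset (T.lca_mem hx hy') (T.left_mem_lca hx) h1)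

theorem bexplains_iff (T : PhyloTree L) (σ : α → S) (G : α → α → Prop) :
    T.BExplains σ G ↔ ∀ x ∈ L, ∀ y ∈ L, (G x y ↔ σ x ≠ σ y ∧ T.Best σ x y) := by
  unfold BExplains Explains qArc
  constructor
  · intro h x hx y hy
    rw [h x hx y hy, T.best_iff σ hx hy]
    constructor
    · rintro ⟨h1, h2, _⟩; exact ⟨h1, h2⟩
    · rintro ⟨h1, h2⟩; exact ⟨h1, h2, filter_subset _ _⟩
  · intro h x hx y hy
    rw [h x hx y hy, T.best_iff σ hx hy]
    constructor
    · rintro ⟨h1, h2⟩; exact ⟨h1, h2, filter_subset _ _⟩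
    · rintro ⟨h1, h2, _⟩; exact ⟨h1, h2⟩

/-- best matches exist for every colour that occurs -/
theorem exists_best (T : PhyloTree L) (σ : α → S) {x y' : α} (hx : x ∈ L) (hy' : y' ∈ L) :
    ∃ w ∈ L, σ w = σ y' ∧ T.Best σ x w := by
  classical
  obtain ⟨w, hw, hmin⟩ := Finset.exists_min_image (L.filter (fun w => σ w = σ y'))
    (fun w => (T.lca x w).card) ⟨y', mem_filter.mpr ⟨hy', rfl⟩⟩
  obtain ⟨hwL, hwσ⟩ := mem_filter.mp hw
  refine ⟨w, hwL, hwσ, ?_⟩
  rw [← T.best_iff σ hx hwL]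
  rintro ⟨z, hzL, hzσ, hlt⟩
  have := hmin z (mem_filter.mpr ⟨hzL, hzσ.trans hwσ⟩)
  exact absurd (card_lt_card hlt) (not_lt.mpr this)

/-- **Restriction.** If `T` explains the qBMG `(G, σ)` on `V` and the induced subgraph on
`W ⊆ V` is a BMG, then the restriction of `T` to `W` explains this BMG. -/
theorem restrict_bexplains {V W : Finset α} (T : PhyloTree V) (σ : α → S) (G : α → α → Prop)
    (hT : T.QExplains σ G) (hsub : W ⊆ V) (hne : W.Nonempty) (hW : IsBMG W σ G) :
    (T.restrict W hsub hne).BExplains σ G := by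
  obtain ⟨u, _, hexp⟩ := hT
  obtain ⟨T0, hT0⟩ := hW
  rw [bexplains_iff] at hT0 ⊢
  intro x hx y hy
  have hxV := hsub hx
  have hyV := hsub hy
  have hG : G x y ↔ σ x ≠ σ y ∧ T.Best σ x y ∧ T.lca x y ⊆ u x (σ y) := by
    rw [hexp x hxV y hyV, qArc, T.best_iff σ hxV hyV]
  constructor
  · intro hxy
    obtain ⟨h1, h2, _⟩ := hG.mp hxy
    refine ⟨h1, ?_⟩
    rintro D hD hxD ⟨y', hy'D, hσ⟩
    obtain ⟨C, hC, rfl⟩ := mem_image.mp (mem_filter.mp hD).1
    rw [mem_inter] at hxD hy'D ⊢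
    exact ⟨h2 C hC hxD.1 ⟨y', hy'D.1, hσ⟩, hy⟩
  · rintro ⟨h1, h2⟩
    -- an out-neighbour `z` of `x` of the same colour as `y`
    obtain ⟨z, hzW, hzσ, hzbest⟩ := T0.exists_best σ hx hy
    have hxz : G x z := (hT0 x hx z hzW).mpr ⟨by rw [hzσ]; exact h1, hzbest⟩
    have hzV := hsub hzW
    have h3 := hxz
    rw [hexp x hxV z hzV, qArc, T.best_iff σ hxV hzV] at h3
    obtain ⟨_, h5, h6⟩ := h3
    -- `lca x z ⊆ lca x y`
    have h7 : z ∈ T.lca x y :=
      h5 _ (T.lca_mem hxV hyV) (T.left_mem_lca hxV) ⟨y, T.right_mem_lca hyV, hzσ.symm⟩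
    -- `y ∈ lca x z`
    have h8 : T.lca x z ∩ W ∈ (T.restrict W hsub hne).clusters := by
      refine mem_filter.mpr ⟨mem_image.mpr ⟨_, T.lca_mem hxV hzV, rfl⟩, ⟨x, ?_⟩⟩
      exact mem_inter.mpr ⟨T.left_mem_lca hxV, hx⟩
    have h9 : y ∈ T.lca x z ∩ W :=
      h2 _ h8 (mem_inter.mpr ⟨T.left_mem_lca hxV, hx⟩)
        ⟨z, mem_inter.mpr ⟨T.right_mem_lca hzV, hzW⟩, hzσ⟩
    have h10 : y ∈ T.lca x z := (mem_inter.mp h9).1
    have h11 : T.lca x y = T.lca x z :=
      Subset.antisymm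
        (T.lca_subset (T.lca_mem hxV hzV) (T.left_mem_lca hxV) h10)
        (T.lca_subset (T.lca_mem hxV hyV) (T.left_mem_lca hxV) h7)
    rw [hG]
    refine ⟨h1, ?_, ?_⟩
    · rintro D hD hxD ⟨y', hy'D, hσ⟩
      have h12 : z ∈ D := h5 D hD hxD ⟨y', hy'D, hσ.trans hzσ.symm⟩
      exact T.lca_subset hD hxD h12 h10
    · rw [h11, ← hzσ]; exact h6

/-- deleting an inner cluster -/
def erase (T : PhyloTree L) (C : Finset α) (hCL : C ≠ L) (hCs : ∀ x, C ≠ {x}) :
    PhyloTree L where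
  clusters := T.clusters.erase C
  root_mem := mem_erase.mpr ⟨hCL.symm, T.root_mem⟩
  leaf_mem := fun x hx => mem_erase.mpr ⟨(hCs x).symm, T.leaf_mem x hx⟩
  nonempty_of_mem := fun D hD => T.nonempty_of_mem D (mem_of_mem_erase hD)
  subset_of_mem := fun D hD => T.subset_of_mem D (mem_of_mem_erase hD)
  laminar := fun D hD E hE => T.laminar D (mem_of_mem_erase hD) E (mem_of_mem_erase hE)

theorem displays_of_subset (T T' : PhyloTree L) (h : T'.clusters ⊆ T.clusters) :
    T.Displays T' := by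
  have hne : L.Nonempty := T.nonempty_of_mem L T.root_mem
  refine ⟨Subset.refl L, hne, ?_⟩
  intro C hC
  refine mem_filter.mpr ⟨mem_image.mpr ⟨C, h hC, ?_⟩, T'.nonempty_of_mem C hC⟩
  exact inter_eq_left.mpr (T'.subset_of_mem C hC)

theorem subset_of_displays (T T' : PhyloTree L) (h : T.Displays T') :
    T'.clusters ⊆ T.clusters := by
  obtain ⟨_, _, h⟩ := h
  intro C hC
  obtain ⟨D, hD, hDC⟩ := mem_image.mp (mem_filter.mp (h hC)).1
  rw [inter_eq_left.mpr (T.subset_of_mem D hD)] at hDC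
  rw [← hDC]; exact hD

/-- **Key lemma.** The clusters of a least resolved tree of a BMG belong to every tree that
explains the BMG. -/
theorem blrt_subset (H H' : PhyloTree L) (σ : α → S) (G : α → α → Prop)
    (hH : H.IsBLRT σ G) (hH' : H'.BExplains σ G) : H.clusters ⊆ H'.clusters := by
  obtain ⟨hexp, hmin⟩ := hH
  intro C hC
  by_cases hCL : C = L
  · rw [hCL]; exact H'.root_mem
  by_cases hCs : ∃ x, C = {x}
  · obtain ⟨x, hx⟩ := hCs
    rw [hx]
    refine H'.leaf_mem x (H.subset_of_mem C hC ?_)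
    rw [hx]; exact mem_singleton_self x
  push Not at hCs
  -- the tree without `C` does not explain `G`
  have h1 := hmin (H.erase C hCL hCs) (displays_of_subset _ _ (erase_subset _ _)) (by
    intro h
    have h2 : C ∈ (H.erase C hCL hCs).clusters := by rw [h]; exact hC
    exact (mem_erase.mp h2).1 rfl)
  rw [bexplains_iff] at h1 hexp hH'
  push Not at h1
  obtain ⟨x, hx, y, hy, h1⟩ := h1
  -- so that `C` is a violated cluster for `(x, y)`
  have h2 : σ x ≠ σ y ∧ (H.erase C hCL hCs).Best σ x y ∧ ¬ G x y := by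
    rcases h1 with ⟨hG, hn⟩ | ⟨hG, hb⟩
    · exfalso
      obtain ⟨h3, h4⟩ := (hexp x hx y hy).mp hG
      exact hn h3 (fun D hD => h4 D (mem_of_mem_erase hD))
    · exact ⟨hb.1, hb.2, hG⟩
  obtain ⟨hσ, hbest, hnG⟩ := h2
  have hnb : ¬ H.Best σ x y := fun h => hnG ((hexp x hx y hy).mpr ⟨hσ, h⟩)
  have h3 : x ∈ C ∧ (∃ y' ∈ C, σ y' = σ y) ∧ y ∉ C := by
    unfold Best at hnb
    push Not at hnb
    obtain ⟨D, hD, hxD, hyD, hynD⟩ := hnb
    by_cases hDC : D = C
    · rw [← hDC]; exact ⟨hxD, hyD, hynD⟩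
    · exact absurd (hbest D (mem_erase.mpr ⟨hDC, hD⟩) hxD hyD) hynD
  obtain ⟨hxC, ⟨y', hy'C, hy'σ⟩, hyC⟩ := h3
  have hy'L : y' ∈ L := H.subset_of_mem C hC hy'C
  -- clusters of `H` strictly above `C` contain `y`
  have habove : ∀ D ∈ H.clusters, C ⊆ D → D ≠ C → y ∈ D := by
    intro D hD hCD hDC
    exact hbest D (mem_erase.mpr ⟨hDC, hD⟩) (hCD hxC) ⟨y', hCD hy'C, hy'σ⟩
  -- the leaves of colour `σ y` in `C` are exactly the out-neighbours of `x` of this colour
  have hN1 : ∀ z ∈ C, σ z = σ y → G x z := by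
    intro z hzC hzσ
    refine (hexp x hx z (H.subset_of_mem C hC hzC)).mpr ⟨by rw [hzσ]; exact hσ, ?_⟩
    rintro D hD hxD ⟨w, hwD, hwσ⟩
    rcases H.chain hC hD hxC hxD with h | h
    · exact h hzC
    · by_cases hDC : D = C
      · rw [hDC]; exact hzC
      · exfalso
        have := hbest D (mem_erase.mpr ⟨hDC, hD⟩) hxD ⟨w, hwD, hwσ.trans hzσ⟩
        exact hyC (h this)
  have hN2 : ∀ z ∈ L, σ z = σ y → z ∉ C → ∀ v ∈ C, σ v ≠ σ y → ¬ G v z := by
    intro z hz hzσ hzC v hvC _ hG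
    have h4 := ((hexp v (H.subset_of_mem C hC hvC) z hz).mp hG).2
    exact hzC (h4 C hC hvC ⟨y', hy'C, hy'σ.trans hzσ.symm⟩)
  -- the cluster of `H'`
  have hGxy' : G x y' := hN1 y' hy'C hy'σ
  -- the smallest cluster of `H'` containing `x` and a leaf of this colour
  have hD0 : ∀ z ∈ H'.lca x y', σ z = σ y → z ∈ C := by
    intro z hz hzσ
    by_contra hzC
    have hzL : z ∈ L := (mem_filter.mp hz).1
    refine hN2 z hzL hzσ hzC x hxC hσ ?_
    refine (hH' x hx z hzL).mpr ⟨by rw [hzσ]; exact hσ, ?_⟩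
    rintro D hD hxD ⟨w, hwD, hwσ⟩
    have h5 : y' ∈ D := ((hH' x hx y' hy'L).mp hGxy').2 D hD hxD
      ⟨w, hwD, hwσ.trans (hzσ.trans hy'σ.symm)⟩
    exact H'.lca_subset hD hxD h5 hz
  -- largest cluster of `H'` containing `x, y'` whose leaves of this colour all lie in `C`
  classical
  obtain ⟨M, hM, hMmax⟩ := Finset.exists_max_image
    (H'.clusters.filter (fun D => x ∈ D ∧ y' ∈ D ∧ ∀ z ∈ D, σ z = σ y → z ∈ C)) Finset.card
    ⟨H'.lca x y', mem_filter.mpr ⟨H'.lca_mem hx hy'L, H'.left_mem_lca hx,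
      H'.right_mem_lca hy'L, hD0⟩⟩
  obtain ⟨hMH, hxM, hy'M, hMC⟩ := mem_filter.mp hM
  have habove' : ∀ D ∈ H'.clusters, M ⊆ D → D ≠ M → ∃ z ∈ D, σ z = σ y ∧ z ∉ C := by
    intro D hD hMD hDM
    by_contra hcon
    push Not at hcon
    have h6 := hMmax D (mem_filter.mpr ⟨hD, hMD hxM, hMD hy'M, hcon⟩)
    exact hDM (Finset.eq_of_subset_of_card_le hMD h6).symm
  -- out-neighbours of `x` of this colour lie in `M`
  have hCM : ∀ w ∈ C, σ w = σ y → w ∈ M := by
    intro w hwC hwσ
    exact ((hH' x hx w (H.subset_of_mem C hC hwC)).mp (hN1 w hwC hwσ)).2 M hMH hxM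
      ⟨y', hy'M, hy'σ.trans hwσ.symm⟩
  have hCeq : C = M := by
    apply Subset.antisymm
    · intro z hzC
      by_contra hzM
      have hzL := H.subset_of_mem C hC hzC
      have hzσ : σ z ≠ σ y := fun h => hzM (hCM z hzC h)
      obtain ⟨w, hwL, hwσ, hwbest⟩ := H.exists_best σ hzL hy
      have hGzw : G z w := (hexp z hzL w hwL).mpr ⟨by rw [hwσ]; exact hzσ, hwbest⟩
      have hwC : w ∈ C := hwbest C hC hzC ⟨y', hy'C, hy'σ.trans hwσ.symm⟩
      have hwM : w ∈ M := hCM w hwC hwσ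
      -- the least common ancestor of `z` and `w` in `H'`
      have hZ := H'.lca_mem hzL hwL
      have hMZ : M ⊆ H'.lca z w := by
        rcases H'.chain hMH hZ hwM (H'.right_mem_lca hwL) with h | h
        · exact h
        · exact absurd (h (H'.left_mem_lca hzL)) hzM
      obtain ⟨t, htZ, htσ, htC⟩ := habove' _ hZ hMZ (fun h => hzM (by
        rw [← h]; exact H'.left_mem_lca hzL))
      have htL : t ∈ L := (mem_filter.mp htZ).1
      refine hN2 t htL htσ htC z hzC hzσ ?_
      refine (hH' z hzL t htL).mpr ⟨by rw [htσ]; exact hzσ, ?_⟩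
      rintro D hD hzD ⟨v, hvD, hvσ⟩
      have hwD : w ∈ D := ((hH' z hzL w hwL).mp hGzw).2 D hD hzD
        ⟨v, hvD, hvσ.trans (htσ.trans hwσ.symm)⟩
      exact H'.lca_subset hD hzD hwD htZ
    · intro z hzM
      by_contra hzC
      have hzL := H'.subset_of_mem M hMH hzM
      have hzσ : σ z ≠ σ y := fun h => hzC (hMC z hzM h)
      obtain ⟨w, hwL, hwσ, hwbest⟩ := H'.exists_best σ hzL hy
      have hGzw : G z w := (hH' z hzL w hwL).mpr ⟨by rw [hwσ]; exact hzσ, hwbest⟩
      have hwM : w ∈ M := hwbest M hMH hzM ⟨y', hy'M, hy'σ.trans hwσ.symm⟩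
      have hwC : w ∈ C := hMC w hwM hwσ
      have hZ := H.lca_mem hzL hwL
      have hCZ : C ⊆ H.lca z w := by
        rcases H.chain hC hZ hwC (H.right_mem_lca hwL) with h | h
        · exact h
        · exact absurd (h (H.left_mem_lca hzL)) hzC
      have hyZ : y ∈ H.lca z w := habove _ hZ hCZ (fun h => hzC (by
        rw [← h]; exact H.left_mem_lca hzL))
      have hGzy : G z y := by
        refine (hexp z hzL y hy).mpr ⟨hzσ, ?_⟩
        rintro D hD hzD ⟨v, hvD, hvσ⟩
        have hwD : w ∈ D := ((hexp z hzL w hwL).mp hGzw).2 D hD hzD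
          ⟨v, hvD, hvσ.trans hwσ.symm⟩
        exact H.lca_subset hD hzD hwD hyZ
      have hyM : y ∈ M := ((hH' z hzL y hy).mp hGzy).2 M hMH hzM ⟨y', hy'M, hy'σ⟩
      exact hyC (hMC y hyM rfl)
  rw [hCeq]; exact hMH

/-- least resolved trees of BMGs exist -/
theorem exists_blrt (σ : α → S) (G : α → α → Prop) (h : IsBMG L σ G) :
    ∃ T : PhyloTree L, T.IsBLRT σ G := by
  classical
  obtain ⟨T0, hT0⟩ := h
  have hex : ∃ n : ℕ, ∃ T : PhyloTree L, T.BExplains σ G ∧ T.clusters.card = n :=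
    ⟨_, T0, hT0, rfl⟩
  obtain ⟨T, hT, hcard⟩ := Nat.find_spec hex
  refine ⟨T, hT, ?_⟩
  intro T' hdisp hne hexp
  have hsub := subset_of_displays T T' hdisp
  have hne' : T'.clusters ≠ T.clusters := fun h => hne (PhyloTree.ext h)
  have hlt : T'.clusters.card < T.clusters.card :=
    card_lt_card (Finset.ssubset_iff_subset_ne.mpr ⟨hsub, hne'⟩)
  have := Nat.find_min' hex ⟨T', hexp, rfl⟩
  omega

end PhyloTree

open PhyloTree in
/-- **Main theorem.** Let `(G, σ)` be a vertex-coloured digraph on `V` and let `W ⊆ V` be any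
set (maximal or not) for which the induced subgraph `(G, σ)[W]` is a BMG. Then this BMG has
exactly one least resolved tree `T_W`, and `T_W` is displayed by every least resolved tree of
the qBMG `(G, σ)`, and indeed by every tree `T` that explains `(G, σ)` with some truncation
map. -/
theorem result (V : Finset α) (σ : α → S) (G : α → α → Prop) (W : Finset α) (hWV : W ⊆ V)
    (hW : IsBMG W σ G) :
    ∃ TW : PhyloTree W, TW.IsBLRT σ G ∧ (∀ T' : PhyloTree W, T'.IsBLRT σ G → T' = TW) ∧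
      (∀ T : PhyloTree V, T.IsQLRT σ G → T.Displays TW) ∧
      (∀ T : PhyloTree V, T.QExplains σ G → T.Displays TW) := by
  obtain ⟨TW, hTW⟩ := exists_blrt σ G hW
  have hne : W.Nonempty := TW.nonempty_of_mem W TW.root_mem
  have hmain : ∀ T : PhyloTree V, T.QExplains σ G → T.Displays TW := by
    intro T hT
    exact ⟨hWV, hne, blrt_subset TW _ σ G hTW (restrict_bexplains T σ G hT hWV hne hW)⟩
  refine ⟨TW, hTW, ?_, fun T hT => hmain T hT.1, hmain⟩
  intro T' hT'
  exact PhyloTree.ext (Subset.antisymm (blrt_subset T' TW σ G hT' hTW.1)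
    (blrt_subset TW T' σ G hTW hT'.1))

end Pool.Agent.Results.MP_5c2e51_co.LRTDisplayed
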